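import Pool.Agent.W996.MW.Stm

/-!
# Part MW-PROD of project MW (owner helper996)
-/

open scoped ComplexOrder Matrix

namespace Pool.Agent.W129.MW

open Pool.Agent.W996.MW

variable {κ : Type} [Fintype κ] [DecidableEq κ]

theorem sum_core {R : Type*} [CommSemiring R] (K : ℕ) (F : (κ → Bool) → R) :
    ∑ x : Fin K × κ → Bool, ∏ j : Fin K, F (fun i => x (j, i)) = (∑ a, F a) ^ K := by
  rw [Fintype.sum_pow]
  exact Fintype.sum_equiv (Equiv.curry (Fin K) κ Bool) _ _ (fun x => rfl)

theorem sum_core2 {R : Type*} [CommSemiring R] (K : ℕ) (F : Fin K → (κ → Bool) → R) :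
    ∑ x : Fin K × κ → Bool, ∏ j : Fin K, F j (fun i => x (j, i)) = ∏ j : Fin K, ∑ a, F j a := by
  rw [Finset.prod_univ_sum, Fintype.piFinset_univ]
  exact Fintype.sum_equiv (Equiv.curry (Fin K) κ Bool) _ _ (fun x => rfl)

theorem sqrt_pow_aux (a : ℝ) (ha : 0 ≤ a) (K : ℕ) : Real.sqrt (a ^ K) = Real.sqrt a ^ K := by
  rw [Real.sqrt_eq_iff_mul_self_eq (by positivity) (by positivity), ← mul_pow,
    Real.mul_self_sqrt ha]

theorem card_spow (K : ℕ) (S : Finset (κ → Bool)) : (spow K S).card = S.card ^ K := by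
  classical
  have h := sum_core (R := ℕ) K (fun a : κ → Bool => if a ∈ S then 1 else 0)
  have h2 : (∑ a : κ → Bool, if a ∈ S then 1 else 0) = S.card := by
    simp
  rw [h2] at h
  rw [← h, spow, Finset.card_filter]
  refine Finset.sum_congr rfl fun x _ => ?_
  by_cases hx : ∀ j : Fin K, (fun i => x (j, i)) ∈ S
  · rw [if_pos hx, Finset.prod_eq_one]
    intro j _
    rw [if_pos (hx j)]
  · rw [if_neg hx]
    push Not at hx
    obtain ⟨j, hj⟩ := hx
    symm
    apply Finset.prod_eq_zero (Finset.mem_univ j)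
    rw [if_neg hj]

theorem prod_part : S_PROD := by
  intro κ _ _ K
  refine ⟨?_, ?_, ?_, ?_, ?_⟩
  · intro A φ hA
    have him : (star φ ⬝ᵥ (A *ᵥ φ)).im = 0 := by
      have := hA.im_star_dotProduct_mulVec_self φ
      simpa using this
    have hz : (star φ ⬝ᵥ (A *ᵥ φ)) = (((star φ ⬝ᵥ (A *ᵥ φ)).re : ℝ) : ℂ) := by
      apply Complex.ext
      · simp
      · rw [him]; simp
    have key : (star (fun x : Fin K × κ → Bool => ∏ j : Fin K, φ (fun i => x (j, i))) ⬝ᵥ
        (tens K A *ᵥ (fun x : Fin K × κ → Bool => ∏ j : Fin K, φ (fun i => x (j, i)))))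
        = (star φ ⬝ᵥ (A *ᵥ φ)) ^ K := by
      have h1 : ∀ x : Fin K × κ → Bool,
          (tens K A *ᵥ (fun x : Fin K × κ → Bool => ∏ j : Fin K, φ (fun i => x (j, i)))) x
          = ∏ j : Fin K, (A *ᵥ φ) (fun i => x (j, i)) := by
        intro x
        simp only [Matrix.mulVec, dotProduct, tens]
        rw [← sum_core2 K (fun j (b : κ → Bool) => A (fun i => x (j, i)) b * φ b)]
        refine Finset.sum_congr rfl fun y _ => ?_
        rw [← Finset.prod_mul_distrib]
      rw [show (star φ ⬝ᵥ (A *ᵥ φ)) = ∑ a, star (φ a) * (A *ᵥ φ) a from rfl, ← sum_core]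
      simp only [dotProduct]
      refine Finset.sum_congr rfl fun x _ => ?_
      rw [h1 x, Finset.prod_mul_distrib]
      congr 1
      simp [Pi.star_apply, star_prod]
    unfold accept
    rw [key, hz, ← Complex.ofReal_pow, Complex.ofReal_re, Complex.ofReal_re]
  · intro φ
    unfold normSq
    rw [← sum_core]
    refine Finset.sum_congr rfl fun x _ => ?_
    rw [norm_prod, Finset.prod_pow]
  · intro S
    funext x
    unfold subsetState
    by_cases hx : ∀ j : Fin K, (fun i => x (j, i)) ∈ S
    · have hm : x ∈ spow K S := by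
        simp only [spow, Finset.mem_filter, Finset.mem_univ, true_and]
        exact hx
      rw [if_pos hm, card_spow]
      rw [Finset.prod_congr rfl (fun j _ => if_pos (hx j))]
      rw [Finset.prod_const, Finset.card_univ, Fintype.card_fin, Nat.cast_pow,
        sqrt_pow_aux _ (by positivity), ← Complex.ofReal_pow, inv_pow]
    · have hm : x ∉ spow K S := by
        simp only [spow, Finset.mem_filter, Finset.mem_univ, true_and]
        exact hx
      rw [if_neg hm]
      push Not at hx
      obtain ⟨j, hj⟩ := hx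
      exact Finset.prod_eq_zero (Finset.mem_univ j) (if_neg hj)
  · rintro S ⟨s, hs⟩
    refine ⟨fun p => s p.2, ?_⟩
    simp only [spow, Finset.mem_filter, Finset.mem_univ, true_and]
    intro j
    exact hs
  · intro S hS x y hyx hx
    simp only [spow, Finset.coe_filter, Finset.mem_univ, true_and, Set.mem_setOf_eq] at hx ⊢
    intro j
    exact hS (fun i => hyx (j, i)) (hx j)

end Pool.Agent.W129.MW
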